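import Pool.Agent.Helper76_MT100.Lem

/-!
Theorem G from REC, GAL, SIE, ZEA, ZEB, EVA.
-/

set_option autoImplicit false

namespace Pool.Agent.MT100.H76

open BigOperators Polynomial Matrix

/-- a radius at which all the entries are summable -/
theorem exists_radius (hE : EvaStmt) {d : Type} [Fintype d] (H : Matrix d d (PowerSeries ℚ))
    (hH : ∀ i j, GType (H i j)) :
    ∃ ρ : ℝ, 0 < ρ ∧ 2 * ρ ≤ 1 ∧ ∀ i j, Sm (H i j) (2 * ρ) := by
  have h1 : ∀ l : d × d, ∃ δ : ℝ, 0 < δ ∧ ∀ x : ℝ, |x| < δ → Sm (H l.1 l.2) x :=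
    fun l => hE.1 _ (hH l.1 l.2)
  choose δ hδ hs using h1
  have h2 : ∃ δ0 : ℝ, 0 < δ0 ∧ ∀ l : d × d, δ0 ≤ δ l := by
    by_cases hne : Nonempty (d × d)
    · obtain ⟨l0, hl0⟩ := Finite.exists_min δ
      exact ⟨δ l0, hδ l0, hl0⟩
    · exact ⟨1, one_pos, fun l => absurd ⟨l⟩ hne⟩
  obtain ⟨δ0, hδ0, hle⟩ := h2
  refine ⟨min (1 / 2) (δ0 / 4), by positivity, ?_, fun i j => ?_⟩
  · have := min_le_left (1 / 2 : ℝ) (δ0 / 4)
    linarith
  · apply hs (i, j)
    have h3 := min_le_right (1 / 2 : ℝ) (δ0 / 4)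
    have h4 : 0 < min (1 / 2 : ℝ) (δ0 / 4) := by positivity
    rw [abs_of_pos (by linarith)]
    have := hle (i, j)
    linarith

theorem rec_coe {d : Type} [Fintype d] [DecidableEq d] {H K : Matrix d d (PowerSeries ℚ)}
    {N : Matrix d d ℤ} {q : ℤ[X]} {B : Matrix d d ℤ[X]} (S : GSys H K N q B)
    (hR : RecStmt) (P : Matrix d d ℚ[X]) (k : ℕ) :
    trace ((Pk (zq q) (B.map zq) (N.map (fun x => (x : ℚ))) P k).map
        (fun p => (p : PowerSeries ℚ)) * H) =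
      ((X * zq q : ℚ[X]) : PowerSeries ℚ) ^ k *
        hs k (trace (P.map (fun p => (p : PowerSeries ℚ)) * H)) := by
  have h := hR.1 d d (zq q) (B.map zq) (N.map (fun x => (x : ℚ))) P
    (Polynomial.coeToPowerSeries.ringHom) H (fun p => by
      simp only [Polynomial.coeToPowerSeries.ringHom_apply]
      exact PowerSeries.derivative_coe p) (by
      have h0 := S.ode
      have e1 : (Polynomial.coeToPowerSeries.ringHom (X * zq q) : PowerSeries ℚ) =
          zp q * PowerSeries.X := by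
        rw [map_mul]
        simp only [Polynomial.coeToPowerSeries.ringHom_apply, Polynomial.coe_X]
        exact mul_comm _ _
      have e2 : (B.map zq).map (Polynomial.coeToPowerSeries.ringHom (R := ℚ)) = B.map zp := by
        ext1 i j
        rfl
      have e3 : (N.map (fun x => (x : ℚ))).map (fun x => PowerSeries.C x) =
          N.map (fun x => (x : PowerSeries ℚ)) := by
        ext1 i j
        simp only [Matrix.map_apply, map_intCast]
      rw [e1, e2, e3]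
      exact h0) k
  exact h

theorem eval_cast (p : ℚ[X]) (x : ℚ) :
    (p.map (algebraMap ℚ ℝ)).eval (x : ℝ) = ((p.eval x : ℚ) : ℝ) := by
  rw [Polynomial.eval_map]
  exact Polynomial.eval₂_at_apply (algebraMap ℚ ℝ) x

/-- the value of the trace -/
theorem ev_trace (hE : EvaStmt) {d : Type} [Fintype d] (P : Matrix d d ℚ[X])
    (H : Matrix d d (PowerSeries ℚ)) (x : ℚ) (hH : ∀ i j, Sm (H i j) (x : ℝ)) :
    ev (trace (P.map (fun p => (p : PowerSeries ℚ)) * H)) (x : ℝ) =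
      ∑ l : d × d, (((P l.1 l.2).eval x : ℚ) : ℝ) * ev (H l.2 l.1) (x : ℝ) := by
  unfold trace
  simp only [diag_apply, Matrix.mul_apply, Matrix.map_apply]
  rw [ev_sum hE _ _ _ (fun i _ => Sm_sum _ _ (fun j _ => (Sm_poly _ _).mul (hH _ _)))]
  rw [Fintype.sum_prod_type]
  refine Finset.sum_congr rfl (fun i _ => ?_)
  rw [ev_sum hE _ _ _ (fun j _ => (Sm_poly _ _).mul (hH _ _))]
  refine Finset.sum_congr rfl (fun j _ => ?_)
  rw [(hE.2.2.1 _ _ _ (Sm_poly _ _) (hH _ _)).2.2.2, hE.2.1]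
  rw [eval_cast]

/-- the norm of the trace -/
theorem Nm_trace {d : Type} [Fintype d] (P : Matrix d d ℚ[X])
    (H : Matrix d d (PowerSeries ℚ)) (σ A h0 : ℝ) (hσ : |σ| ≤ 1) (hH : ∀ i j, Sm (H i j) σ)
    (hA : ((∑ i, ∑ j, nrm (P i j) : ℚ) : ℝ) ≤ A) (hh : ∀ i j, Nm (H i j) σ ≤ h0) (h00 : 0 ≤ h0) :
    Sm (trace (P.map (fun p => (p : PowerSeries ℚ)) * H)) σ ∧
    Nm (trace (P.map (fun p => (p : PowerSeries ℚ)) * H)) σ ≤ A * h0 := by
  unfold trace
  simp only [diag_apply, Matrix.mul_apply, Matrix.map_apply]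
  have h1 : ∀ i j, Sm (((P i j : ℚ[X]) : PowerSeries ℚ) * H j i) σ :=
    fun i j => (Sm_poly _ _).mul (hH _ _)
  refine ⟨Sm_sum _ _ (fun i _ => Sm_sum _ _ (fun j _ => h1 i j)), ?_⟩
  refine (Nm_sum _ _ (fun i _ => Sm_sum _ _ (fun j _ => h1 i j))).trans ?_
  refine le_trans (Finset.sum_le_sum (fun i _ => Nm_sum _ _ (fun j _ => h1 i j))) ?_
  calc ∑ i, ∑ j, Nm (((P i j : ℚ[X]) : PowerSeries ℚ) * H j i) σ
      ≤ ∑ i, ∑ j, ((nrm (P i j) : ℚ) : ℝ) * h0 := by
        refine Finset.sum_le_sum (fun i _ => Finset.sum_le_sum (fun j _ => ?_))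
        refine (Nm_mul (Sm_poly _ _) (hH _ _)).trans ?_
        refine mul_le_mul (Nm_poly _ hσ) (hh _ _) (Nm_nonneg _ _) ?_
        exact_mod_cast nrm_nonneg _
    _ = ((∑ i, ∑ j, nrm (P i j) : ℚ) : ℝ) * h0 := by
        push_cast
        simp only [Finset.sum_mul]
    _ ≤ A * h0 := mul_le_mul_of_nonneg_right hA h00

end Pool.Agent.MT100.H76
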