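import Mathlib

/-!
The final determinant argument: an integer relation `a`, together with integer vectors
`v k` spanning the whole space and almost orthogonal to the real vector `h`, bounds
every coordinate of `h`.
-/

namespace Pool.Agent.MT100.H76

open Matrix BigOperators

theorem prod_bound {ι : Type*} [Fintype ι] [DecidableEq ι] (f : ι → ℝ) (i0 j1 : ι)
    (hne : j1 ≠ i0) (A V ε : ℝ) (hf : ∀ i, 0 ≤ f i) (h0 : f i0 ≤ ε) (h1 : f j1 ≤ A)
    (hV : ∀ i, f i ≤ V ∨ i = i0 ∨ i = j1) :
    ∏ i, f i ≤ A * V ^ (Fintype.card ι - 2) * ε := by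
  classical
  have hA : 0 ≤ A := (hf j1).trans h1
  have hε : 0 ≤ ε := (hf i0).trans h0
  rw [← Finset.mul_prod_erase Finset.univ f (Finset.mem_univ i0)]
  rw [← Finset.mul_prod_erase (Finset.univ.erase i0) f
    (Finset.mem_erase.2 ⟨hne, Finset.mem_univ j1⟩)]
  have hc : ((Finset.univ.erase i0).erase j1 : Finset ι).card = Fintype.card ι - 2 := by
    rw [Finset.card_erase_of_mem (Finset.mem_erase.2 ⟨hne, Finset.mem_univ j1⟩),
      Finset.card_erase_of_mem (Finset.mem_univ i0), Finset.card_univ]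
    omega
  have hp : ∏ i ∈ (Finset.univ.erase i0).erase j1, f i ≤ V ^ (Fintype.card ι - 2) := by
    rw [← hc, ← Finset.prod_const]
    refine Finset.prod_le_prod (fun i _ => hf i) (fun i hi => ?_)
    rcases hV i with h | h | h
    · exact h
    · exact absurd h (Finset.mem_erase.1 (Finset.mem_erase.1 hi).2).1
    · exact absurd h (Finset.mem_erase.1 hi).1
  have hp0 : 0 ≤ ∏ i ∈ (Finset.univ.erase i0).erase j1, f i :=
    Finset.prod_nonneg (fun i _ => hf i)
  calc f i0 * (f j1 * ∏ i ∈ (Finset.univ.erase i0).erase j1, f i)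
      ≤ ε * (A * V ^ (Fintype.card ι - 2)) := by
        refine mul_le_mul h0 ?_ (mul_nonneg (hf j1) hp0) hε
        exact mul_le_mul h1 hp hp0 hA
    _ = A * V ^ (Fintype.card ι - 2) * ε := by ring

theorem exists_rows {ι : Type*} [Fintype ι] [DecidableEq ι] (a : ι → ℤ) (ha : a ≠ 0)
    {κ : Type*} (v : κ → ι → ℤ)
    (hspan : Submodule.span ℚ (Set.range fun k => fun i => (v k i : ℚ)) = ⊤) :
    ∃ (r : ι → ι → ℤ) (j0 : ι), r j0 = a ∧ (∀ j, j ≠ j0 → ∃ k, r j = v k) ∧
      (Matrix.of r).det ≠ 0 := by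
  classical
  let aq : ι → ℚ := fun i => (a i : ℚ)
  let vq : κ → ι → ℚ := fun k i => (v k i : ℚ)
  have haq : aq ≠ 0 := by
    intro h
    apply ha
    funext i
    have := congrFun h i
    simpa [aq] using this
  let t : Set (ι → ℚ) := insert aq (Set.range vq)
  have hs : LinearIndepOn ℚ id ({aq} : Set (ι → ℚ)) :=
    LinearIndepOn.singleton (v := id) haq
  obtain ⟨b, hbt, hsb, htb, hb'⟩ := exists_linearIndepOn_id_extension hs
    (t := t) (by
      intro x hx
      rw [Set.mem_singleton_iff] at hx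
      rw [hx]
      exact Set.mem_insert _ _)
  have hb : LinearIndependent ℚ ((↑) : b → (ι → ℚ)) := hb'
  have htop : ⊤ ≤ Submodule.span ℚ (Set.range ((↑) : b → (ι → ℚ))) := by
    rw [Subtype.range_coe]
    rw [← hspan, Submodule.span_le]
    refine Set.Subset.trans ?_ htb
    exact Set.subset_insert _ _
  let B : Module.Basis b ℚ (ι → ℚ) := Module.Basis.mk hb htop
  have : Fintype b := FiniteDimensional.fintypeBasisIndex B
  have hcard : Fintype.card b = Fintype.card ι := by
    have h1 := Module.finrank_eq_card_basis B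
    rw [Module.finrank_fintype_fun_eq_card] at h1
    exact h1.symm
  let e : ι ≃ b := (Fintype.equivOfCardEq hcard).symm
  have hab : aq ∈ b := hsb (Set.mem_singleton _)
  let j0 : ι := e.symm ⟨aq, hab⟩
  have hlift : ∀ j : ι, ∃ w : ι → ℤ, (∀ i, (w i : ℚ) = (e j : ι → ℚ) i) ∧
      (j = j0 → w = a) ∧ (j ≠ j0 → ∃ k, w = v k) := by
    intro j
    by_cases hj : j = j0
    · refine ⟨a, ?_, fun _ => rfl, fun h => absurd hj h⟩
      intro i
      rw [hj]
      simp [j0, aq]
    · have hm : (e j : ι → ℚ) ∈ t := hbt (e j).2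
      rcases hm with hm | ⟨k, hk⟩
      · exfalso
        apply hj
        have : e j = ⟨aq, hab⟩ := Subtype.ext hm
        simp only [j0]
        rw [← this, Equiv.symm_apply_apply]
      · refine ⟨v k, ?_, fun h => absurd h hj, fun _ => ⟨k, rfl⟩⟩
        intro i
        rw [← hk]
  choose w hw1 hw2 hw3 using hlift
  refine ⟨w, j0, hw2 j0 rfl, fun j hj => hw3 j hj, ?_⟩
  intro hdet
  have hli : LinearIndependent ℚ (fun j => (e j : ι → ℚ)) := by
    have := hb.comp e e.injective
    exact this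
  have hM : (Matrix.of fun j i => (w j i : ℚ)).det ≠ 0 := by
    have h2 : LinearIndependent ℚ (Matrix.of fun j i => (w j i : ℚ)).row := by
      have : (Matrix.of fun j i => (w j i : ℚ)).row = fun j => (e j : ι → ℚ) := by
        funext j i
        simp [Matrix.row, hw1]
      rw [this]
      exact hli
    have h3 := (Matrix.linearIndependent_rows_iff_isUnit).1 h2
    rw [Matrix.isUnit_iff_isUnit_det] at h3
    exact h3.ne_zero
  apply hM
  have h4 : (Matrix.of fun j i => (w j i : ℚ)) = (Matrix.of w).map (Int.castRingHom ℚ) := by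
    ext j i
    simp
  rw [h4, ← RingHom.mapMatrix_apply, ← RingHom.map_det, hdet, map_zero]

theorem det_final {ι : Type*} [Fintype ι] [DecidableEq ι] (h : ι → ℝ) (i0 : ι) (a : ι → ℤ)
    (ha : a ≠ 0) (hah : ∑ i, (a i : ℝ) * h i = 0) {κ : Type*} (v : κ → ι → ℤ)
    (hspan : Submodule.span ℚ (Set.range fun k => fun i => (v k i : ℚ)) = ⊤)
    (A V ε : ℝ) (hA : ∀ i, |(a i : ℝ)| ≤ A) (hV : ∀ k i, |(v k i : ℝ)| ≤ V) (hV1 : 1 ≤ V)
    (hε : ∀ k, |∑ i, (v k i : ℝ) * h i| ≤ ε) (hε0 : 0 ≤ ε) :
    |h i0| ≤ (Fintype.card ι).factorial * (A * V ^ (Fintype.card ι - 2) * ε) := by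
  classical
  obtain ⟨r, j0, hr0, hr, hdet⟩ := exists_rows a ha v hspan
  have hA0 : 0 ≤ A := (abs_nonneg _).trans (hA i0)
  let R : Matrix ι ι ℝ := (Matrix.of r).map (Int.castRingHom ℝ)
  have hRdet : R.det = (((Matrix.of r).det : ℤ) : ℝ) := by
    simp only [R]
    rw [← RingHom.mapMatrix_apply, ← RingHom.map_det]
    rfl
  have h1 : 1 ≤ |R.det| := by
    rw [hRdet, ← Int.cast_abs]
    exact_mod_cast Int.one_le_abs hdet
  have hcr : (R.updateCol i0 (R.mulVec h)).det = R.det * h i0 := by
    rw [← Matrix.cramer_apply, Matrix.cramer_eq_adjugate_mulVec, Matrix.mulVec_mulVec,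
      Matrix.adjugate_mul, Matrix.smul_mulVec, Matrix.one_mulVec]
    simp
  have hrow : ∀ j, (R.mulVec h) j = ∑ i, (r j i : ℝ) * h i := by
    intro j
    simp [R, Matrix.mulVec, dotProduct]
  have hterm : ∀ σ : Equiv.Perm ι,
      |∏ j, (R.updateCol i0 (R.mulVec h)) (σ j) j| ≤ A * V ^ (Fintype.card ι - 2) * ε := by
    intro σ
    rw [Finset.abs_prod]
    by_cases hs : σ i0 = j0
    · have : ∏ j, |(R.updateCol i0 (R.mulVec h)) (σ j) j| = 0 := by
        apply Finset.prod_eq_zero (Finset.mem_univ i0)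
        rw [Matrix.updateCol_self, hs, hrow, hr0, hah, abs_zero]
      rw [this]
      positivity
    · let j1 := σ.symm j0
      have hj1 : σ j1 = j0 := Equiv.apply_symm_apply _ _
      have hne : j1 ≠ i0 := by
        intro hh
        exact hs (hh ▸ hj1)
      refine prod_bound _ i0 j1 hne A V ε (fun i => abs_nonneg _) ?_ ?_ ?_
      · rw [Matrix.updateCol_self, hrow]
        obtain ⟨k, hk⟩ := hr (σ i0) hs
        rw [hk]
        exact hε k
      · rw [Matrix.updateCol_ne hne, hj1]
        have : R j0 j1 = (a j1 : ℝ) := by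
          simp [R, hr0]
        rw [this]
        exact hA j1
      · intro i
        by_cases hi0 : i = i0
        · exact Or.inr (Or.inl hi0)
        by_cases hi1 : i = j1
        · exact Or.inr (Or.inr hi1)
        left
        rw [Matrix.updateCol_ne hi0]
        have hsi : σ i ≠ j0 := by
          intro hh
          apply hi1
          simp only [j1]
          rw [← hh, Equiv.symm_apply_apply]
        obtain ⟨k, hk⟩ := hr (σ i) hsi
        have : R (σ i) i = (v k i : ℝ) := by
          simp [R, hk]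
        rw [this]
        exact hV k i
  have hbound : |(R.updateCol i0 (R.mulVec h)).det| ≤
      (Fintype.card ι).factorial * (A * V ^ (Fintype.card ι - 2) * ε) := by
    rw [Matrix.det_apply']
    refine (Finset.abs_sum_le_sum_abs _ _).trans ?_
    calc ∑ σ : Equiv.Perm ι, |((Equiv.Perm.sign σ : ℤˣ) : ℤ) *
          ∏ j, (R.updateCol i0 (R.mulVec h)) (σ j) j|
        ≤ ∑ _σ : Equiv.Perm ι, (A * V ^ (Fintype.card ι - 2) * ε) := by
          refine Finset.sum_le_sum (fun σ _ => ?_)
          rw [abs_mul]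
          have : |(((Equiv.Perm.sign σ : ℤˣ) : ℤ) : ℝ)| = 1 := by
            rcases Int.units_eq_one_or (Equiv.Perm.sign σ) with h | h <;> simp [h]
          rw [this, one_mul]
          exact hterm σ
      _ = (Fintype.card ι).factorial * (A * V ^ (Fintype.card ι - 2) * ε) := by
          rw [Finset.sum_const, Finset.card_univ, Fintype.card_perm, nsmul_eq_mul]
  calc |h i0| = 1 * |h i0| := by ring
    _ ≤ |R.det| * |h i0| := by
        exact mul_le_mul_of_nonneg_right h1 (abs_nonneg _)
    _ = |(R.updateCol i0 (R.mulVec h)).det| := by rw [hcr, abs_mul]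
    _ ≤ _ := hbound

end Pool.Agent.MT100.H76
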