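import Pool.Agent.Helper76_MT100.Step

/-!
Module FIN / GFN: Theorem G (linear independence over the rationals of the values at `1/n` of a
fundamental matrix of `G`-functions, for all large `n`).
-/

set_option autoImplicit false

namespace Pool.Agent.MT100.H76

open BigOperators Polynomial Matrix

/-- the value of a diagonal entry is not small -/
theorem diag_large (hE : EvaStmt) (f : PowerSeries ℚ) (hf : PowerSeries.constantCoeff f = 1)
    (hG : GType f) : ∃ n0 : ℕ, ∀ n : ℕ, n0 ≤ n → 1 / 2 ≤ |ev f ((n : ℝ)⁻¹)| := by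
  obtain ⟨δ, hδ, hs⟩ := hE.1 f hG
  have h1 : |δ / 2| < δ := by
    rw [abs_of_pos (by linarith)]
    linarith
  have h2 := hE.2.2.2 f (δ / 2) (by linarith) (hs _ h1) 0 (by
    rw [abs_zero]
    exact abs_pos.2 (by linarith))
  have h3 : Filter.Tendsto (fun n : ℕ => ev f ((n : ℝ)⁻¹)) Filter.atTop (nhds 1) := by
    have h4 := h2.continuousAt.tendsto
    rw [ev_at_zero, hf, Rat.cast_one] at h4
    exact h4.comp tendsto_inv_atTop_nhds_zero_nat
  have h5 := h3.eventually (lt_mem_nhds (show (1 / 2 : ℝ) < 1 by norm_num))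
  obtain ⟨n0, hn0⟩ := Filter.eventually_atTop.1 h5
  exact ⟨n0, fun n hn => (hn0 n hn).le.trans (le_abs_self _)⟩

theorem exponents (mu c M L n : ℕ) (hn : 1 ≤ n) (hmu : 2 ≤ mu) (hM : M = c * mu + 3)
    (hL : c * (mu - 1) * (mu + c * mu ^ 2) ≤ L) :
    ((n : ℝ) ^ (M * L + c * (mu + (L + c * mu ^ 2)))) ^ (mu - 1) *
      ((n : ℝ)⁻¹) ^ ((mu * M - 1) * L) ≤ ((n : ℝ)⁻¹) ^ L := by
  have hnR : (1 : ℝ) ≤ n := by exact_mod_cast hn
  have hn0 : (0 : ℝ) < n := by linarith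
  have hexp : (M * L + c * (mu + (L + c * mu ^ 2))) * (mu - 1) + L ≤ (mu * M - 1) * L := by
    obtain ⟨m, rfl⟩ : ∃ m, mu = m + 2 := ⟨mu - 2, by omega⟩
    subst hM
    have e1 : m + 2 - 1 = m + 1 := by omega
    rw [e1] at hL ⊢
    have e2 : (m + 2) * (c * (m + 2) + 3) - 1 = (m + 1) * (c * (m + 2) + 3) + (c * (m + 2) + 2) := by
      have : (m + 2) * (c * (m + 2) + 3) = (m + 1) * (c * (m + 2) + 3) + (c * (m + 2) + 2) + 1 := by
        ring
      omega
    rw [e2]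
    have e3 : ((m + 1) * (c * (m + 2) + 3) + (c * (m + 2) + 2)) * L =
        ((c * (m + 2) + 3) * L + c * (m + 2 + (L + c * (m + 2) ^ 2))) * (m + 1) + L +
          ((c + 1) * L) - c * (m + 1) * (m + 2 + c * (m + 2) ^ 2) := by
      have : ((m + 1) * (c * (m + 2) + 3) + (c * (m + 2) + 2)) * L +
          c * (m + 1) * (m + 2 + c * (m + 2) ^ 2) =
          ((c * (m + 2) + 3) * L + c * (m + 2 + (L + c * (m + 2) ^ 2))) * (m + 1) + L +
            ((c + 1) * L) := by ring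
      omega
    rw [e3]
    have e4 : c * (m + 1) * (m + 2 + c * (m + 2) ^ 2) ≤ (c + 1) * L := by
      refine hL.trans ?_
      exact Nat.le_mul_of_pos_left L (Nat.succ_pos c)
    omega
  have h1 : ((n : ℝ)⁻¹) ^ ((mu * M - 1) * L) ≤
      ((n : ℝ)⁻¹) ^ ((M * L + c * (mu + (L + c * mu ^ 2))) * (mu - 1) + L) :=
    pow_le_pow_of_le_one (by positivity) (inv_le_one_of_one_le₀ hnR) hexp
  calc ((n : ℝ) ^ (M * L + c * (mu + (L + c * mu ^ 2)))) ^ (mu - 1) *
      ((n : ℝ)⁻¹) ^ ((mu * M - 1) * L)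
      ≤ ((n : ℝ) ^ (M * L + c * (mu + (L + c * mu ^ 2)))) ^ (mu - 1) *
        ((n : ℝ)⁻¹) ^ ((M * L + c * (mu + (L + c * mu ^ 2))) * (mu - 1) + L) :=
        mul_le_mul_of_nonneg_left h1 (by positivity)
    _ = ((n : ℝ)⁻¹) ^ L := by
        rw [← pow_mul, pow_add, inv_pow, ← mul_assoc,
          mul_inv_cancel₀ (pow_ne_zero _ hn0.ne'), one_mul]

theorem gfn (hE : EvaStmt) (hR : RecStmt) (hG : GalStmt) (hS : SieStmt) (hA : ZeaStmt)
    (hB : ZebStmt) : GfnStmt := by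
  intro d _ _ H hI hF
  by_cases hd : Nonempty d
  swap
  · refine ⟨0, fun n _ a _ => ?_⟩
    funext i
    exact absurd ⟨i⟩ hd
  obtain ⟨mu, hmu⟩ : ∃ mu, mu = Fintype.card (d × d) := ⟨_, rfl⟩
  have hmu1 : 1 ≤ mu := by
    rw [hmu]
    exact Fintype.card_pos
  obtain ⟨j0⟩ := hd
  have : Nonempty d := ⟨j0⟩
  have hdiag : ∃ n0 : ℕ, ∀ n : ℕ, n0 ≤ n → 1 / 2 ≤ |ev (H j0 j0) ((n : ℝ)⁻¹)| := by
    obtain ⟨K, N, q, B, S⟩ := hI
    exact diag_large hE _ (by rw [S.one]; simp) (S.gH _ _)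
  obtain ⟨n4, hn4⟩ := hdiag
  obtain ⟨c, M, V, W, L0, n1, hM, hV, hW, hV1, hn11, hstep⟩ :=
    step hE hR hG hS hA hB H hI hF mu hmu
  obtain ⟨n5, hn5⟩ := ((hV.pow (mu - 2)).mul hW).beat
  refine ⟨max (max n1 n4) n5, fun n hn a hrel => ?_⟩
  have hnn1 : n1 ≤ n := ((le_max_left _ _).trans (le_max_left _ _)).trans hn
  have hnn4 : n4 ≤ n := ((le_max_right _ _).trans (le_max_left _ _)).trans hn
  have hnn5 : n5 ≤ n := (le_max_right _ _).trans hn
  by_contra hne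
  -- an integral relation
  obtain ⟨m, z, hm, hz⟩ := clear_denoms (fun l : d × d => a l.2 l.1)
  have hzne : z ≠ 0 := by
    intro h
    apply hne
    funext i j
    have h1 := hz (j, i)
    rw [h] at h1
    simp only [Pi.zero_apply, Int.cast_zero, mul_eq_zero, Nat.cast_eq_zero] at h1
    exact h1.resolve_left hm.ne'
  have hzrel : ∑ l : d × d, (z l : ℝ) * ev (H l.2 l.1) (n : ℝ)⁻¹ = 0 := by
    have h1 : ∀ l : d × d, ((z l : ℤ) : ℝ) = (m : ℝ) * (a l.2 l.1 : ℝ) := by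
      intro l
      have h2 := hz l
      have h3 : ((z l : ℤ) : ℝ) = (((z l : ℤ) : ℚ) : ℝ) := by push_cast; rfl
      rw [h3, ← h2]
      push_cast
      ring
    simp only [h1]
    rw [Fintype.sum_prod_type, Finset.sum_comm]
    have h4 : ∑ y : d, ∑ x : d, (m : ℝ) * (a (x, y).2 (x, y).1 : ℝ) *
        ev (H (x, y).2 (x, y).1) (n : ℝ)⁻¹ =
        (m : ℝ) * ∑ i, ∑ j, (a i j : ℝ) * ev (H i j) (n : ℝ)⁻¹ := by
      simp only [Finset.mul_sum]
      exact Finset.sum_congr rfl (fun i _ => Finset.sum_congr rfl (fun j _ => by ring))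
    rw [h4, hrel, mul_zero]
  by_cases hmu2 : mu = 1
  · -- one entry only
    have hsub : ∀ l : d × d, l = (j0, j0) := by
      have : Fintype.card (d × d) ≤ 1 := by omega
      intro l
      exact Fintype.card_le_one_iff.1 this _ _
    have h1 : ∑ l : d × d, (z l : ℝ) * ev (H l.2 l.1) (n : ℝ)⁻¹ =
        (z (j0, j0) : ℝ) * ev (H j0 j0) (n : ℝ)⁻¹ := by
      rw [Fintype.sum_eq_single (j0, j0)]
      intro l hl
      exact absurd (hsub l) hl
    rw [h1] at hzrel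
    rcases mul_eq_zero.1 hzrel with h | h
    · apply hzne
      funext l
      rw [hsub l]
      exact_mod_cast h
    · have := hn4 n hnn4
      rw [h, abs_zero] at this
      linarith
  have hmu3 : 2 ≤ mu := by omega
  -- the size of the relation
  obtain ⟨A, hA0, hAz⟩ : ∃ A : ℝ, 0 ≤ A ∧ ∀ l, |(z l : ℝ)| ≤ A := by
    refine ⟨∑ l, |(z l : ℝ)|, Finset.sum_nonneg (fun _ _ => abs_nonneg _), fun l => ?_⟩
    exact Finset.single_le_sum (f := fun l => |(z l : ℝ)|) (fun _ _ => abs_nonneg _)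
      (Finset.mem_univ l)
  obtain ⟨L1, hL1⟩ := hn5 n hnn5 ((Nat.factorial mu : ℝ) * A)
  let L := max (max L0 L1) (c * (mu - 1) * (mu + c * mu ^ 2))
  have hLL0 : L0 ≤ L := (le_max_left _ _).trans (le_max_left _ _)
  have hLL1 : L1 ≤ L := (le_max_right _ _).trans (le_max_left _ _)
  have hLL2 : c * (mu - 1) * (mu + c * mu ^ 2) ≤ L := le_max_right _ _
  obtain ⟨v, hspan, hvV, hvW⟩ := hstep L hLL0 n hnn1
  have hn1 : 1 ≤ n := hn11.trans hnn1
  have hnR : (1 : ℝ) ≤ n := by exact_mod_cast hn1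
  have hW0 : 0 ≤ W L := by
    obtain ⟨G, _, hG⟩ := hW
    exact (hG L).1
  have hfin := det_final (fun l : d × d => ev (H l.2 l.1) (n : ℝ)⁻¹) (j0, j0) z hzne hzrel v hspan
    A _ _ hAz hvV (one_le_mul_of_one_le_of_one_le (one_le_pow₀ hnR) (hV1 L)) hvW (by positivity)
  rw [← hmu] at hfin
  have h1 := (hn4 n hnn4).trans hfin
  have h2 := hL1 L hLL1
  have hex := exponents mu c M L n hn1 hmu3 hM hLL2
  have hVL : 0 ≤ V L := zero_le_one.trans (hV1 L)
  set E := (n : ℝ) ^ (M * L + c * (mu + (L + c * mu ^ 2))) with hEdef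
  set x := ((n : ℝ)⁻¹) ^ ((mu * M - 1) * L) with hxdef
  have h3 : (Nat.factorial mu : ℝ) * (A * (E * V L) ^ (mu - 2) * (E * W L * x)) =
      (Nat.factorial mu : ℝ) * A * (V L ^ (mu - 2) * W L) * (E ^ (mu - 1) * x) := by
    have h4 : E ^ (mu - 1) = E ^ (mu - 2) * E := by
      rw [← pow_succ]
      congr 1
      omega
    rw [h4, mul_pow]
    ring
  rw [h3] at h1
  have h5 : (Nat.factorial mu : ℝ) * A * (V L ^ (mu - 2) * W L) * (E ^ (mu - 1) * x) ≤
      (Nat.factorial mu : ℝ) * A * (V L ^ (mu - 2) * W L) * ((n : ℝ)⁻¹) ^ L :=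
    mul_le_mul_of_nonneg_left hex (by positivity)
  linarith

end Pool.Agent.MT100.H76
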