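import Pool.Agent.MT100.Defs

/-!
Weighted `ℓ¹` norms of power series: `Nm f ρ = ∑ |fₖ| ρᵏ`.
-/

set_option autoImplicit false

namespace Pool.Agent.MT100.H76

open BigOperators

/-- summability at radius `ρ` (in the form of `EvaStmt`) -/
def Sm (f : PowerSeries ℚ) (ρ : ℝ) : Prop :=
  Summable fun k => |((PowerSeries.coeff k f : ℚ) : ℝ)| * |ρ| ^ k

/-- the weighted norm -/
noncomputable def Nm (f : PowerSeries ℚ) (ρ : ℝ) : ℝ :=
  ∑' k, |((PowerSeries.coeff k f : ℚ) : ℝ)| * |ρ| ^ k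

theorem Nm_nonneg (f : PowerSeries ℚ) (ρ : ℝ) : 0 ≤ Nm f ρ :=
  tsum_nonneg (fun _ => by positivity)

theorem Sm.mono {f : PowerSeries ℚ} {ρ σ : ℝ} (h : Sm f σ) (hρ : |ρ| ≤ |σ|) : Sm f ρ := by
  refine Summable.of_nonneg_of_le (fun _ => by positivity) (fun k => ?_) h
  exact mul_le_mul_of_nonneg_left (pow_le_pow_left₀ (abs_nonneg _) hρ k) (abs_nonneg _)

theorem Nm_mono {f : PowerSeries ℚ} {ρ σ : ℝ} (h : Sm f σ) (hρ : |ρ| ≤ |σ|) : Nm f ρ ≤ Nm f σ := by
  refine Summable.tsum_le_tsum (fun k => ?_) (h.mono hρ) h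
  exact mul_le_mul_of_nonneg_left (pow_le_pow_left₀ (abs_nonneg _) hρ k) (abs_nonneg _)

theorem coe_add' (f g : PowerSeries ℚ) (k : ℕ) :
    ((PowerSeries.coeff k (f + g) : ℚ) : ℝ) =
      ((PowerSeries.coeff k f : ℚ) : ℝ) + ((PowerSeries.coeff k g : ℚ) : ℝ) := by
  rw [map_add]; push_cast; ring

theorem Sm.add {f g : PowerSeries ℚ} {ρ : ℝ} (hf : Sm f ρ) (hg : Sm g ρ) : Sm (f + g) ρ := by
  refine Summable.of_nonneg_of_le (fun _ => by positivity) (fun k => ?_) (Summable.add hf hg)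
  rw [coe_add', ← add_mul]
  exact mul_le_mul_of_nonneg_right (abs_add_le _ _) (by positivity)

theorem Nm_add {f g : PowerSeries ℚ} {ρ : ℝ} (hf : Sm f ρ) (hg : Sm g ρ) :
    Nm (f + g) ρ ≤ Nm f ρ + Nm g ρ := by
  unfold Nm
  rw [← Summable.tsum_add hf hg]
  refine Summable.tsum_le_tsum (fun k => ?_) (hf.add hg) (Summable.add hf hg)
  rw [coe_add', ← add_mul]
  exact mul_le_mul_of_nonneg_right (abs_add_le _ _) (by positivity)

theorem Sm_zero (ρ : ℝ) : Sm 0 ρ := by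
  have : (fun k => |((PowerSeries.coeff k (0 : PowerSeries ℚ) : ℚ) : ℝ)| * |ρ| ^ k) =
      fun _ => (0 : ℝ) := by
    funext k
    simp
  unfold Sm
  rw [this]
  exact summable_zero

theorem Nm_zero (ρ : ℝ) : Nm 0 ρ = 0 := by
  unfold Nm
  simp

theorem Sm_sum {σ : Type*} (s : Finset σ) (f : σ → PowerSeries ℚ) {ρ : ℝ}
    (h : ∀ i ∈ s, Sm (f i) ρ) : Sm (∑ i ∈ s, f i) ρ := by
  classical
  induction s using Finset.induction_on with
  | empty => simpa using Sm_zero ρ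
  | insert a s ha ih =>
    rw [Finset.sum_insert ha]
    exact (h a (Finset.mem_insert_self _ _)).add
      (ih (fun i hi => h i (Finset.mem_insert_of_mem hi)))

theorem Nm_sum {σ : Type*} (s : Finset σ) (f : σ → PowerSeries ℚ) {ρ : ℝ}
    (h : ∀ i ∈ s, Sm (f i) ρ) : Nm (∑ i ∈ s, f i) ρ ≤ ∑ i ∈ s, Nm (f i) ρ := by
  classical
  induction s using Finset.induction_on with
  | empty => simp [Nm_zero]
  | insert a s ha ih =>
    rw [Finset.sum_insert ha, Finset.sum_insert ha]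
    refine (Nm_add (h a (Finset.mem_insert_self _ _))
      (Sm_sum s f (fun i hi => h i (Finset.mem_insert_of_mem hi)))).trans ?_
    gcongr
    exact ih (fun i hi => h i (Finset.mem_insert_of_mem hi))

theorem mul_term (f g : PowerSeries ℚ) (ρ : ℝ) (k : ℕ) :
    |((PowerSeries.coeff k (f * g) : ℚ) : ℝ)| * |ρ| ^ k ≤
      ∑ p ∈ Finset.HasAntidiagonal.antidiagonal k,
        (|((PowerSeries.coeff p.1 f : ℚ) : ℝ)| * |ρ| ^ p.1) *
        (|((PowerSeries.coeff p.2 g : ℚ) : ℝ)| * |ρ| ^ p.2) := by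
  rw [PowerSeries.coeff_mul]
  push_cast
  refine (mul_le_mul_of_nonneg_right (Finset.abs_sum_le_sum_abs _ _) (by positivity)).trans ?_
  rw [Finset.sum_mul]
  refine Finset.sum_le_sum (fun p hp => ?_)
  rw [Finset.HasAntidiagonal.mem_antidiagonal] at hp
  rw [abs_mul, ← hp, pow_add]
  apply le_of_eq
  ring

theorem Sm.mul {f g : PowerSeries ℚ} {ρ : ℝ} (hf : Sm f ρ) (hg : Sm g ρ) : Sm (f * g) ρ := by
  have h := summable_norm_sum_mul_antidiagonal_of_summable_norm (R := ℝ)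
    (f := fun k => |((PowerSeries.coeff k f : ℚ) : ℝ)| * |ρ| ^ k)
    (g := fun k => |((PowerSeries.coeff k g : ℚ) : ℝ)| * |ρ| ^ k)
    (by simpa [abs_mul, Sm] using hf) (by simpa [abs_mul, Sm] using hg)
  refine Summable.of_nonneg_of_le (fun _ => by positivity) (fun k => ?_) h
  refine (mul_term f g ρ k).trans ?_
  exact le_abs_self _

theorem Nm_mul {f g : PowerSeries ℚ} {ρ : ℝ} (hf : Sm f ρ) (hg : Sm g ρ) :
    Nm (f * g) ρ ≤ Nm f ρ * Nm g ρ := by
  have hf' : Summable fun k => ‖|((PowerSeries.coeff k f : ℚ) : ℝ)| * |ρ| ^ k‖ := by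
    simpa [abs_mul, Sm] using hf
  have hg' : Summable fun k => ‖|((PowerSeries.coeff k g : ℚ) : ℝ)| * |ρ| ^ k‖ := by
    simpa [abs_mul, Sm] using hg
  have h := summable_norm_sum_mul_antidiagonal_of_summable_norm (R := ℝ) hf' hg'
  have h2 := tsum_mul_tsum_eq_tsum_sum_antidiagonal_of_summable_norm (R := ℝ) hf' hg'
  unfold Nm
  rw [h2]
  exact Summable.tsum_le_tsum (fun k => mul_term f g ρ k) (hf.mul hg) h.of_norm

theorem Sm_one (ρ : ℝ) : Sm 1 ρ := by
  refine summable_of_ne_finset_zero (s := {0}) (fun k hk => ?_)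
  rw [Finset.mem_singleton] at hk
  simp [PowerSeries.coeff_one, hk]

theorem Nm_one (ρ : ℝ) : Nm 1 ρ = 1 := by
  unfold Nm
  rw [tsum_eq_single 0]
  · simp
  · intro k hk
    simp [PowerSeries.coeff_one, hk]

theorem Sm.pow {f : PowerSeries ℚ} {ρ : ℝ} (hf : Sm f ρ) (k : ℕ) : Sm (f ^ k) ρ := by
  induction k with
  | zero => simpa using Sm_one ρ
  | succ k ih => rw [pow_succ]; exact ih.mul hf

theorem Nm_pow {f : PowerSeries ℚ} {ρ : ℝ} (hf : Sm f ρ) (k : ℕ) :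
    Nm (f ^ k) ρ ≤ Nm f ρ ^ k := by
  induction k with
  | zero => simp [Nm_one]
  | succ k ih =>
    rw [pow_succ, pow_succ]
    exact (Nm_mul (hf.pow k) hf).trans (mul_le_mul_of_nonneg_right ih (Nm_nonneg _ _))

theorem Sm_X (ρ : ℝ) : Sm PowerSeries.X ρ := by
  refine summable_of_ne_finset_zero (s := {1}) (fun k hk => ?_)
  rw [Finset.mem_singleton] at hk
  simp [PowerSeries.coeff_X, hk]

theorem Nm_X (ρ : ℝ) : Nm PowerSeries.X ρ = |ρ| := by
  unfold Nm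
  rw [tsum_eq_single 1]
  · simp
  · intro k hk
    simp [PowerSeries.coeff_X, hk]

theorem Sm_poly (p : Polynomial ℚ) (ρ : ℝ) : Sm (p : PowerSeries ℚ) ρ := by
  refine summable_of_ne_finset_zero (s := p.support) (fun k hk => ?_)
  rw [Polynomial.notMem_support_iff] at hk
  simp [hk]

theorem Nm_poly (p : Polynomial ℚ) {ρ : ℝ} (hρ : |ρ| ≤ 1) :
    Nm (p : PowerSeries ℚ) ρ ≤ ((nrm p : ℚ) : ℝ) := by
  unfold Nm nrm
  rw [tsum_eq_sum (s := p.support)]
  · push_cast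
    refine Finset.sum_le_sum (fun k _ => ?_)
    have h1 : |ρ| ^ k ≤ 1 := pow_le_one₀ (abs_nonneg _) hρ
    calc |((p.coeff k : ℚ) : ℝ)| * |ρ| ^ k ≤ |((p.coeff k : ℚ) : ℝ)| * 1 :=
          mul_le_mul_of_nonneg_left h1 (abs_nonneg _)
      _ = |((p.coeff k : ℚ) : ℝ)| := mul_one _
  · intro k hk
    rw [Polynomial.notMem_support_iff] at hk
    simp [hk]

/-- the divided derivatives -/
theorem hs_bound {f : PowerSeries ℚ} {ρ : ℝ} (hf : Sm f (2 * ρ)) (k : ℕ) :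
    Sm (hs k f) ρ ∧ |ρ| ^ k * Nm (hs k f) ρ ≤ Nm f (2 * ρ) := by
  by_cases hρ : ρ = 0
  · subst hρ
    constructor
    · refine summable_of_ne_finset_zero (s := {0}) (fun m hm => ?_)
      rw [Finset.mem_singleton] at hm
      simp [hm]
    · rcases Nat.eq_zero_or_pos k with hk | hk
      · subst hk
        simp only [pow_zero, one_mul, mul_zero]
        apply le_of_eq
        unfold Nm
        congr 1
        funext m
        simp [hs]
      · rw [abs_zero, zero_pow hk.ne', zero_mul]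
        exact Nm_nonneg _ _
  have hρ' : 0 < |ρ| := abs_pos.2 hρ
  have key : ∀ m, |ρ| ^ k * (|((PowerSeries.coeff m (hs k f) : ℚ) : ℝ)| * |ρ| ^ m) ≤
      |((PowerSeries.coeff (m + k) f : ℚ) : ℝ)| * |2 * ρ| ^ (m + k) := by
    intro m
    unfold hs
    rw [PowerSeries.coeff_mk]
    push_cast
    rw [abs_mul, abs_mul, mul_pow]
    have h1 : (((m + k).choose k : ℕ) : ℝ) ≤ (2 : ℝ) ^ (m + k) := by
      exact_mod_cast Nat.choose_le_two_pow (m + k) k
    have h2 : |(2 : ℝ)| = 2 := abs_of_pos two_pos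
    have h3 : |(((m + k).choose k : ℕ) : ℝ)| = (((m + k).choose k : ℕ) : ℝ) :=
      abs_of_nonneg (Nat.cast_nonneg _)
    rw [h2, h3]
    calc |ρ| ^ k * ((((m + k).choose k : ℕ) : ℝ) *
          |((PowerSeries.coeff (m + k) f : ℚ) : ℝ)| * |ρ| ^ m)
        = (((m + k).choose k : ℕ) : ℝ) *
          (|((PowerSeries.coeff (m + k) f : ℚ) : ℝ)| * |ρ| ^ (m + k)) := by
          rw [pow_add]; ring
      _ ≤ (2 : ℝ) ^ (m + k) *
          (|((PowerSeries.coeff (m + k) f : ℚ) : ℝ)| * |ρ| ^ (m + k)) :=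
          mul_le_mul_of_nonneg_right h1 (by positivity)
      _ = _ := by ring
  have hsum : Summable fun m =>
      |((PowerSeries.coeff (m + k) f : ℚ) : ℝ)| * |2 * ρ| ^ (m + k) :=
    (summable_nat_add_iff k).2 hf
  have h1 : Summable fun m => |ρ| ^ k * (|((PowerSeries.coeff m (hs k f) : ℚ) : ℝ)| * |ρ| ^ m) :=
    Summable.of_nonneg_of_le (fun _ => by positivity) key hsum
  have h2 : Sm (hs k f) ρ := by
    have := h1.mul_left ((|ρ| ^ k)⁻¹)
    refine this.congr (fun m => ?_)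
    rw [← mul_assoc, inv_mul_cancel₀ (pow_pos hρ' k).ne', one_mul]
  refine ⟨h2, ?_⟩
  unfold Nm
  rw [← tsum_mul_left]
  refine (Summable.tsum_le_tsum key h1 hsum).trans ?_
  have h3 := hf.sum_add_tsum_nat_add k
  rw [← h3]
  have : 0 ≤ ∑ i ∈ Finset.range k, |((PowerSeries.coeff i f : ℚ) : ℝ)| * |2 * ρ| ^ i :=
    Finset.sum_nonneg (fun _ _ => by positivity)
  linarith

/-- smallness from a zero of high order -/
theorem ev_small {f : PowerSeries ℚ} {ρ x : ℝ} (hρ : 0 < ρ) (hx : 0 ≤ x) (hxρ : x ≤ ρ)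
    (hf : Sm f ρ) (T : ℕ) (hT : ∀ i < T, PowerSeries.coeff i f = 0) :
    |ev f x| ≤ (x / ρ) ^ T * Nm f ρ := by
  have key : ∀ k, |((PowerSeries.coeff k f : ℚ) : ℝ) * x ^ k| ≤
      (x / ρ) ^ T * (|((PowerSeries.coeff k f : ℚ) : ℝ)| * |ρ| ^ k) := by
    intro k
    by_cases hk : k < T
    · rw [hT k hk]
      simp
    · push Not at hk
      have h0 : 0 ≤ x / ρ := div_nonneg hx hρ.le
      have h1 : x / ρ ≤ 1 := (div_le_one hρ).2 hxρ
      have h2 : (x / ρ) ^ k ≤ (x / ρ) ^ T := pow_le_pow_of_le_one h0 h1 hk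
      rw [abs_mul, abs_of_nonneg (pow_nonneg hx k), abs_of_pos hρ]
      have h3 : x ^ k = (x / ρ) ^ k * ρ ^ k := by
        rw [← mul_pow, div_mul_cancel₀ _ hρ.ne']
      rw [h3]
      calc |((PowerSeries.coeff k f : ℚ) : ℝ)| * ((x / ρ) ^ k * ρ ^ k)
          = (x / ρ) ^ k * (|((PowerSeries.coeff k f : ℚ) : ℝ)| * ρ ^ k) := by ring
        _ ≤ (x / ρ) ^ T * (|((PowerSeries.coeff k f : ℚ) : ℝ)| * ρ ^ k) :=
            mul_le_mul_of_nonneg_right h2 (by positivity)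
  have hs1 : Summable fun k => (x / ρ) ^ T * (|((PowerSeries.coeff k f : ℚ) : ℝ)| * |ρ| ^ k) :=
    Summable.mul_left _ hf
  have hs2 : Summable fun k => |((PowerSeries.coeff k f : ℚ) : ℝ) * x ^ k| :=
    Summable.of_nonneg_of_le (fun _ => abs_nonneg _) key hs1
  unfold ev Nm
  rw [← tsum_mul_left]
  calc |∑' k, ((PowerSeries.coeff k f : ℚ) : ℝ) * x ^ k|
      ≤ ∑' k, |((PowerSeries.coeff k f : ℚ) : ℝ) * x ^ k| := by
        exact norm_tsum_le_tsum_norm (f := fun k => ((PowerSeries.coeff k f : ℚ) : ℝ) * x ^ k)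
          hs2
    _ ≤ _ := Summable.tsum_le_tsum key hs2 hs1

end Pool.Agent.MT100.H76
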