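import Pool.Agent.MT100.Stmts
import Pool.Agent.Helper76_MT100.Nm
import Pool.Agent.Helper76_MT100.Det

/-!
Auxiliary facts for Theorem G: denominators, spans, exponential bounds.
-/

set_option autoImplicit false

namespace Pool.Agent.MT100.H76

open BigOperators Polynomial

theorem clear_denoms {ι : Type*} [Fintype ι] (a : ι → ℚ) :
    ∃ (m : ℕ) (z : ι → ℤ), 0 < m ∧ ∀ i, (m : ℚ) * a i = z i := by
  classical
  have h : ∀ i, ∃ z : ℤ, ((∏ j, (a j).den : ℕ) : ℚ) * a i = z := by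
    intro i
    rw [← Finset.mul_prod_erase Finset.univ (fun j => (a j).den) (Finset.mem_univ i)]
    refine ⟨(a i).num * ((∏ j ∈ Finset.univ.erase i, (a j).den : ℕ) : ℤ), ?_⟩
    have h1 : ((a i).den : ℚ) * a i = (a i).num := by
      rw [mul_comm]
      exact Rat.mul_den_eq_num (a i)
    push_cast
    rw [← h1]
    ring
  choose z hz using h
  exact ⟨_, z, Finset.prod_pos (fun j _ => (a j).den_pos), hz⟩

theorem span_top_of_dual {ι κ : Type*} [Fintype ι] [DecidableEq ι] (w : κ → ι → ℚ)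
    (h : ∀ u : ι → ℚ, (∀ k, ∑ i, w k i * u i = 0) → u = 0) :
    Submodule.span ℚ (Set.range w) = ⊤ := by
  by_contra hne
  obtain ⟨f, hf, hle⟩ := Submodule.exists_le_ker_of_lt_top _ (lt_top_iff_ne_top.2 hne)
  apply hf
  have hfu : ∀ x : ι → ℚ, f x = ∑ i, x i * f (Pi.single i 1) := by
    intro x
    conv_lhs => rw [← Finset.univ_sum_single x]
    rw [map_sum]
    refine Finset.sum_congr rfl (fun i _ => ?_)
    have : Pi.single i (x i) = x i • (Pi.single i (1 : ℚ) : ι → ℚ) := by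
      rw [← Pi.single_smul]
      simp
    rw [this, map_smul, smul_eq_mul]
  have hu := h (fun i => f (Pi.single i 1)) (fun k => by
    rw [← hfu]
    exact hle (Submodule.subset_span ⟨k, rfl⟩))
  apply LinearMap.ext
  intro x
  rw [hfu]
  refine (Finset.sum_eq_zero (fun i _ => ?_)).trans (LinearMap.zero_apply x).symm
  have := congrFun hu i
  simp only [Pi.zero_apply] at this
  rw [this, mul_zero]

theorem zq_ne_zero {q : ℤ[X]} (hq : q ≠ 0) : zq q ≠ 0 := by
  unfold zq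
  rwa [Ne, Polynomial.map_eq_zero_iff (Int.castRingHom ℚ).injective_int]

theorem natDegree_zq (q : ℤ[X]) : (zq q).natDegree = q.natDegree := by
  unfold zq
  exact Polynomial.natDegree_map_eq_of_injective (Int.castRingHom ℚ).injective_int q

theorem eval_ne_zero_large {q : ℤ[X]} (hq : q ≠ 0) :
    ∃ n1 : ℕ, ∀ n : ℕ, n1 ≤ n → (zq q).eval ((n : ℚ)⁻¹) ≠ 0 := by
  have hfin : {n : ℕ | (zq q).eval ((n : ℚ)⁻¹) = 0}.Finite := by
    have h1 : ((zq q).rootSet ℚ).Finite := Polynomial.rootSet_finite _ _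
    refine Set.Finite.subset (h1.preimage (f := fun n : ℕ => ((n : ℚ)⁻¹)) ?_) ?_
    · intro a _ b _ hab
      have : ((a : ℚ)) = b := inv_injective hab
      exact_mod_cast this
    · intro n hn
      rw [Set.mem_preimage, Polynomial.mem_rootSet]
      refine ⟨zq_ne_zero hq, ?_⟩
      simpa using hn
  obtain ⟨b, hb⟩ := hfin.bddAbove
  refine ⟨b + 1, fun n hn h0 => ?_⟩
  have := hb h0
  omega

theorem int_value (z : ℤ[X]) (E n : ℕ) (hn : 0 < n) (hz : z.natDegree ≤ E) :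
    ∃ v : ℤ, (v : ℚ) = (n : ℚ) ^ E * (zq z).eval ((n : ℚ)⁻¹) := by
  refine ⟨∑ m ∈ Finset.range (E + 1), z.coeff m * (n : ℤ) ^ (E - m), ?_⟩
  have h1 : (zq z).natDegree < E + 1 := by
    rw [natDegree_zq]
    omega
  rw [Polynomial.eval_eq_sum_range' h1, Finset.mul_sum]
  push_cast
  refine Finset.sum_congr rfl (fun m hm => ?_)
  rw [Finset.mem_range] at hm
  have h2 : (n : ℚ) ^ E = (n : ℚ) ^ (E - m) * (n : ℚ) ^ m := by
    rw [← pow_add]
    congr 1
    omega
  have h3 : (n : ℚ) ≠ 0 := by exact_mod_cast hn.ne'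
  have h4 : (zq z).coeff m = (z.coeff m : ℚ) := by
    unfold zq
    rw [Polynomial.coeff_map]
    rfl
  rw [h4, h2, inv_pow]
  field_simp

theorem nrm_nonneg (p : ℚ[X]) : 0 ≤ nrm p := Finset.sum_nonneg (fun _ _ => abs_nonneg _)

theorem eval_le_nrm (p : ℚ[X]) {x : ℚ} (hx : |x| ≤ 1) : |p.eval x| ≤ nrm p := by
  rw [Polynomial.eval_eq_sum]
  unfold Polynomial.sum nrm
  refine (Finset.abs_sum_le_sum_abs _ _).trans (Finset.sum_le_sum (fun i _ => ?_))
  rw [abs_mul, abs_pow]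
  calc |p.coeff i| * |x| ^ i ≤ |p.coeff i| * 1 :=
        mul_le_mul_of_nonneg_left (pow_le_one₀ (abs_nonneg _) hx) (abs_nonneg _)
    _ = |p.coeff i| := mul_one _

theorem nrm_smul_eval (p : ℚ[X]) (D : ℕ) {x : ℚ} (hx : |x| ≤ 1) :
    |((D : ℚ) • p).eval x| ≤ (D : ℚ) * nrm p := by
  rw [Polynomial.eval_smul, smul_eq_mul, abs_mul, abs_of_nonneg (Nat.cast_nonneg D)]
  exact mul_le_mul_of_nonneg_left (eval_le_nrm p hx) (Nat.cast_nonneg D)

theorem nrm_zq_le (p : ℤ[X]) (M : ℕ) (C : ℤ) (hM : p.natDegree ≤ M)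
    (hC : ∀ i, |p.coeff i| ≤ C) : nrm (zq p) ≤ ((M : ℚ) + 1) * C := by
  unfold nrm
  have h1 : (zq p).support ⊆ Finset.range (M + 1) := by
    intro i hi
    rw [Finset.mem_range]
    have h2 := Polynomial.le_natDegree_of_mem_supp i hi
    rw [natDegree_zq] at h2
    omega
  calc ∑ i ∈ (zq p).support, |(zq p).coeff i| ≤ ∑ _i ∈ (zq p).support, (C : ℚ) := by
        refine Finset.sum_le_sum (fun i _ => ?_)
        have h4 : (zq p).coeff i = (p.coeff i : ℚ) := by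
          unfold zq
          rw [Polynomial.coeff_map]
          rfl
        rw [h4, ← Int.cast_abs]
        exact_mod_cast hC i
    _ = ((zq p).support.card : ℚ) * C := by rw [Finset.sum_const, nsmul_eq_mul]
    _ ≤ ((M : ℚ) + 1) * C := by
        have h5 : ((zq p).support.card : ℚ) ≤ (M : ℚ) + 1 := by
          have := Finset.card_le_card h1
          rw [Finset.card_range] at this
          exact_mod_cast this
        have h6 : (0 : ℚ) ≤ C := by
          have := (abs_nonneg _).trans (hC 0)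
          exact_mod_cast this
        exact mul_le_mul_of_nonneg_right h5 h6

/-! ### Values of sums and products -/

theorem ev_zero (x : ℝ) : ev 0 x = 0 := by
  unfold ev
  simp

theorem ev_sum (hE : EvaStmt) {σ : Type*} (s : Finset σ) (f : σ → PowerSeries ℚ) (x : ℝ)
    (h : ∀ i ∈ s, Sm (f i) x) : ev (∑ i ∈ s, f i) x = ∑ i ∈ s, ev (f i) x := by
  classical
  induction s using Finset.induction_on with
  | empty => simp [ev_zero]
  | insert a s ha ih =>
    rw [Finset.sum_insert ha, Finset.sum_insert ha]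
    have h1 := h a (Finset.mem_insert_self _ _)
    have h2 := Sm_sum s f (ρ := x) (fun i hi => h i (Finset.mem_insert_of_mem hi))
    rw [(hE.2.2.1 _ _ x h1 h2).2.2.1, ih (fun i hi => h i (Finset.mem_insert_of_mem hi))]

theorem ev_at_zero (f : PowerSeries ℚ) : ev f 0 = ((PowerSeries.constantCoeff f : ℚ) : ℝ) := by
  unfold ev
  rw [tsum_eq_single 0]
  · simp
  · intro k hk
    simp [hk]

/-! ### Exponential bounds -/

/-- nonnegative and at most geometric -/
def ExpB (f : ℕ → ℝ) : Prop := ∃ G : ℝ, 1 ≤ G ∧ ∀ L, 0 ≤ f L ∧ f L ≤ G ^ (L + 1)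

theorem ExpB.mul {f g : ℕ → ℝ} (hf : ExpB f) (hg : ExpB g) : ExpB (fun L => f L * g L) := by
  obtain ⟨F, hF1, hF⟩ := hf
  obtain ⟨G, hG1, hG⟩ := hg
  refine ⟨F * G, one_le_mul_of_one_le_of_one_le hF1 hG1, fun L => ?_⟩
  refine ⟨mul_nonneg (hF L).1 (hG L).1, ?_⟩
  rw [mul_pow]
  exact mul_le_mul (hF L).2 (hG L).2 (hG L).1 (by positivity)

theorem ExpB.pow {f : ℕ → ℝ} (hf : ExpB f) (k : ℕ) : ExpB (fun L => f L ^ k) := by
  obtain ⟨F, hF1, hF⟩ := hf
  refine ⟨F ^ k, one_le_pow₀ hF1, fun L => ?_⟩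
  refine ⟨pow_nonneg (hF L).1 k, ?_⟩
  rw [← pow_mul, mul_comm k, pow_mul]
  exact pow_le_pow_left₀ (hF L).1 (hF L).2 k

theorem ExpB.const {c : ℝ} (hc : 0 ≤ c) : ExpB (fun _ => c) := by
  refine ⟨max 1 c, le_max_left _ _, fun L => ⟨hc, ?_⟩⟩
  calc c ≤ max 1 c := le_max_right _ _
    _ = (max 1 c) ^ 1 := (pow_one _).symm
    _ ≤ (max 1 c) ^ (L + 1) := pow_le_pow_right₀ (le_max_left _ _) (by omega)

theorem ExpB.geom {x : ℝ} (hx : 1 ≤ x) (a b : ℕ) : ExpB (fun L => x ^ (a * L + b)) := by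
  refine ⟨x ^ (a + b), one_le_pow₀ hx, fun L => ⟨by positivity, ?_⟩⟩
  rw [← pow_mul]
  refine pow_le_pow_right₀ hx ?_
  nlinarith [Nat.zero_le (b * L), Nat.zero_le a]

theorem ExpB.geom' {x : ℝ} (hx : 1 ≤ x) (e : ℕ → ℕ) (a b : ℕ) (he : ∀ L, e L = a * L + b) :
    ExpB (fun L => x ^ e L) := by
  have : (fun L => x ^ e L) = fun L => x ^ (a * L + b) := by
    funext L
    rw [he]
  rw [this]
  exact ExpB.geom hx a b

theorem ExpB.lin (M : ℕ) : ExpB (fun L => (M : ℝ) * L + 1) := by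
  obtain ⟨G, hG1, hG⟩ := ExpB.geom (x := 2) one_le_two M 0
  refine ⟨G, hG1, fun L => ⟨by positivity, ?_⟩⟩
  refine le_trans ?_ (hG L).2
  have := Nat.lt_two_pow_self (n := M * L)
  have h2 : M * L + 1 ≤ 2 ^ (M * L) := this
  show (M : ℝ) * L + 1 ≤ 2 ^ (M * L + 0)
  rw [add_zero]
  exact_mod_cast h2

/-- a geometric sequence of large ratio beats an exponential bound -/
theorem ExpB.beat {f : ℕ → ℝ} (hf : ExpB f) :
    ∃ n0 : ℕ, ∀ n : ℕ, n0 ≤ n → ∀ A : ℝ, ∃ L0 : ℕ, ∀ L, L0 ≤ L → A * f L * ((n : ℝ)⁻¹) ^ L < 1 / 2 := by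
  obtain ⟨G, hG1, hG⟩ := hf
  obtain ⟨n0, hn0⟩ := exists_nat_gt G
  refine ⟨n0, fun n hn A => ?_⟩
  have hnG : G < n := hn0.trans_le (by exact_mod_cast hn)
  have hn : (0 : ℝ) < n := by linarith
  have hr : |G * (n : ℝ)⁻¹| < 1 := by
    rw [abs_of_nonneg (by positivity), ← div_eq_mul_inv, div_lt_one hn]
    exact hnG
  have ht := (tendsto_pow_atTop_nhds_zero_of_abs_lt_one hr).const_mul (|A| * G)
  rw [mul_zero] at ht
  have hev := (ht.eventually (gt_mem_nhds (show (0 : ℝ) < 1 / 2 by norm_num)))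
  obtain ⟨L0, hL0⟩ := Filter.eventually_atTop.1 hev
  refine ⟨L0, fun L hL => lt_of_le_of_lt ?_ (hL0 L hL)⟩
  calc A * f L * ((n : ℝ)⁻¹) ^ L ≤ |A| * G ^ (L + 1) * ((n : ℝ)⁻¹) ^ L := by
        apply mul_le_mul_of_nonneg_right _ (by positivity)
        exact mul_le_mul (le_abs_self A) (hG L).2 (hG L).1 (abs_nonneg _)
    _ = |A| * G * (G * (n : ℝ)⁻¹) ^ L := by
        rw [mul_pow, pow_succ]
        ring

end Pool.Agent.MT100.H76
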