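import Pool.Agent.Helper76_MT100.Gfn

/-!
The integer vectors of Theorem G.
-/

set_option autoImplicit false

namespace Pool.Agent.MT100.H76

open BigOperators Polynomial Matrix

theorem order_hs {R g : PowerSeries ℚ} (T k : ℕ) (hR : ∀ i < T, PowerSeries.coeff i R = 0) :
    ∀ i < T, PowerSeries.coeff i ((PowerSeries.X * g) ^ k * hs k R) = 0 := by
  rw [← PowerSeries.X_pow_dvd_iff]
  by_cases hk : T ≤ k
  · refine Dvd.dvd.mul_right ?_ _
    rw [mul_pow]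
    exact (pow_dvd_pow _ hk).mul_right _
  · push Not at hk
    have h1 : (PowerSeries.X : PowerSeries ℚ) ^ (T - k) ∣ hs k R := by
      rw [PowerSeries.X_pow_dvd_iff]
      intro m hm
      unfold hs
      rw [PowerSeries.coeff_mk, hR (m + k) (by omega), mul_zero]
    have h2 : (PowerSeries.X : PowerSeries ℚ) ^ T = PowerSeries.X ^ k * PowerSeries.X ^ (T - k) := by
      rw [← pow_add]
      congr 1
      omega
    rw [h2, mul_pow]
    exact mul_dvd_mul (Dvd.intro _ rfl) h1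

theorem small_value {R : PowerSeries ℚ} (q : ℚ[X]) (T k TT : ℕ) (ρ x Q Z : ℝ)
    (hρ : 0 < ρ) (hρ1 : 2 * ρ ≤ 1) (hx : 0 ≤ x) (hxρ : x ≤ ρ)
    (hR : ∀ i < T, PowerSeries.coeff i R = 0) (hS : Sm R (2 * ρ)) (hZ : Nm R (2 * ρ) ≤ Z)
    (hQ1 : 1 ≤ Q) (hQ : ((nrm q : ℚ) : ℝ) ≤ Q) (hk : k ≤ TT) :
    |ev (((X * q : ℚ[X]) : PowerSeries ℚ) ^ k * hs k R) x| ≤
      (x / ρ) ^ T * (Q ^ TT * Z) := by
  have hZ0 : 0 ≤ Z := (Nm_nonneg _ _).trans hZ
  have hXq : ((X * q : ℚ[X]) : PowerSeries ℚ) = PowerSeries.X * (q : PowerSeries ℚ) := by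
    rw [Polynomial.coe_mul, Polynomial.coe_X]
  have hb := hs_bound (f := R) (ρ := ρ) hS k
  have hSq : Sm ((X * q : ℚ[X]) : PowerSeries ℚ) ρ := Sm_poly _ _
  have hNq : Nm ((X * q : ℚ[X]) : PowerSeries ℚ) ρ ≤ ρ * Q := by
    rw [hXq]
    refine (Nm_mul (Sm_X ρ) (Sm_poly q ρ)).trans ?_
    rw [Nm_X, abs_of_pos hρ]
    refine mul_le_mul_of_nonneg_left ?_ hρ.le
    refine (Nm_poly q ?_).trans hQ
    rw [abs_of_pos hρ]
    linarith
  have hord := order_hs (g := (q : PowerSeries ℚ)) T k hR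
  rw [← hXq] at hord
  refine (ev_small hρ hx hxρ ((hSq.pow k).mul hb.1) T hord).trans ?_
  refine mul_le_mul_of_nonneg_left ?_ (by positivity)
  calc Nm (((X * q : ℚ[X]) : PowerSeries ℚ) ^ k * hs k R) ρ
      ≤ Nm (((X * q : ℚ[X]) : PowerSeries ℚ) ^ k) ρ * Nm (hs k R) ρ := Nm_mul (hSq.pow k) hb.1
    _ ≤ (ρ * Q) ^ k * Nm (hs k R) ρ := by
        refine mul_le_mul_of_nonneg_right ?_ (Nm_nonneg _ _)
        exact (Nm_pow hSq k).trans (pow_le_pow_left₀ (Nm_nonneg _ _) hNq k)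
    _ = Q ^ k * (|ρ| ^ k * Nm (hs k R) ρ) := by
        rw [abs_of_pos hρ, mul_pow]
        ring
    _ ≤ Q ^ k * Z := by
        refine mul_le_mul_of_nonneg_left (hb.2.trans hZ) (by positivity)
    _ ≤ Q ^ TT * Z := by
        refine mul_le_mul_of_nonneg_right ?_ hZ0
        exact pow_le_pow_right₀ hQ1 hk

/-- the bound for the sum of the norms of the coefficients of `P` -/
theorem sum_nrm_le {d : Type} [Fintype d] (P : Matrix d d ℤ[X]) (M C : ℕ)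
    (hP : ∀ i j, (P i j).natDegree ≤ M ∧ ∀ k, |(P i j).coeff k| ≤ (C : ℤ)) :
    (∑ i, ∑ j, nrm (zq (P i j))) ≤ (Fintype.card (d × d) : ℚ) * (((M : ℚ) + 1) * C) := by
  calc (∑ i, ∑ j, nrm (zq (P i j))) ≤ ∑ _i : d, ∑ _j : d, ((M : ℚ) + 1) * C := by
        refine Finset.sum_le_sum (fun i _ => Finset.sum_le_sum (fun j _ => ?_))
        have := nrm_zq_le (P i j) M (C : ℤ) (hP i j).1 (hP i j).2
        simpa using this
    _ = _ := by
        simp only [Finset.sum_const, Finset.card_univ, nsmul_eq_mul, Fintype.card_prod]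
        push_cast
        ring

theorem index_lt (e mu M L c0 : ℕ) (he : 1 ≤ e) (hmu : mu = e * e) (hM : 3 ≤ M) (hL : c0 < L) :
    e * (e - 1) * (M * L) + c0 < (mu * M - 1) * L := by
  obtain ⟨f, rfl⟩ : ∃ f, e = f + 1 := ⟨e - 1, by omega⟩
  subst hmu
  have h1 : (f + 1) * (f + 1 - 1) * M + 2 ≤ (f + 1) * (f + 1) * M - 1 := by
    have h2 : (f + 1) * (f + 1) * M = (f + 1) * (f + 1 - 1) * M + (f + 1) * M := by
      rw [Nat.add_sub_cancel]
      ring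
    have h3 : 3 ≤ (f + 1) * M := by nlinarith
    omega
  calc (f + 1) * (f + 1 - 1) * (M * L) + c0 < (f + 1) * (f + 1 - 1) * (M * L) + 2 * L := by omega
    _ = ((f + 1) * (f + 1 - 1) * M + 2) * L := by ring
    _ ≤ ((f + 1) * (f + 1) * M - 1) * L := Nat.mul_le_mul_right _ h1

theorem index_le (mu M L c : ℕ) (h : 1 ≤ mu * M) :
    mu * (M * L) + c * mu ^ 2 ≤ (mu * M - 1) * L + (L + c * mu ^ 2) := by
  have : (mu * M - 1) * L + L = mu * (M * L) := by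
    rw [← Nat.succ_mul, Nat.succ_eq_add_one, Nat.sub_add_cancel h, mul_assoc]
  omega

theorem step (hE : EvaStmt) (hR : RecStmt) (hG : GalStmt) (hS : SieStmt) (hA : ZeaStmt)
    (hB : ZebStmt) {d : Type} [Fintype d] [DecidableEq d] [Nonempty d]
    (H : Matrix d d (PowerSeries ℚ)) (hI : IsG H) (hF : FreeE H) (mu : ℕ)
    (hmu : mu = Fintype.card (d × d)) :
    ∃ (c M : ℕ) (V W : ℕ → ℝ) (L0 n1 : ℕ), M = c * mu + 3 ∧ ExpB V ∧ ExpB W ∧
      (∀ L, 1 ≤ V L) ∧ 1 ≤ n1 ∧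
      ∀ L, L0 ≤ L → ∀ n, n1 ≤ n → ∃ v : Fin (mu + (L + c * mu ^ 2)) → d × d → ℤ,
        Submodule.span ℚ (Set.range fun k => fun i => (v k i : ℚ)) = ⊤ ∧
        (∀ k l, |(v k l : ℝ)| ≤ (n : ℝ) ^ (M * L + c * (mu + (L + c * mu ^ 2))) * V L) ∧
        (∀ k, |∑ l, (v k l : ℝ) * ev (H l.2 l.1) (n : ℝ)⁻¹| ≤
          (n : ℝ) ^ (M * L + c * (mu + (L + c * mu ^ 2))) * W L *
            ((n : ℝ)⁻¹) ^ ((mu * M - 1) * L)) := by
  obtain ⟨K, N, q, B, S⟩ := hI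
  have hmu1 : 1 ≤ mu := by
    rw [hmu]
    exact Fintype.card_pos
  -- the degree bound
  obtain ⟨c, hc1, hc2⟩ : ∃ c : ℕ, (X * zq q).natDegree ≤ c ∧
      ∀ i j, (zq (B i j)).natDegree ≤ c := by
    refine ⟨(X * zq q).natDegree + ∑ l : d × d, (zq (B l.1 l.2)).natDegree, by omega, ?_⟩
    intro i j
    have := Finset.single_le_sum (f := fun l : d × d => (zq (B l.1 l.2)).natDegree)
      (fun _ _ => Nat.zero_le _) (Finset.mem_univ (i, j))
    simp only at this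
    omega
  obtain ⟨M, hM⟩ : ∃ M, M = c * mu + 3 := ⟨_, rfl⟩
  have hM3 : 3 ≤ M := by omega
  obtain ⟨Cg, hCg0, hCg⟩ := hG d H K N q B S
  obtain ⟨Cs, hCs0, hCs⟩ := hS (d × d) (fun l => H l.2 l.1) (fun l => S.gH _ _) M (by omega)
  obtain ⟨c0, hc0⟩ := hA d H K N q B S hF
  obtain ⟨ρ, hρ, hρ1, hρs⟩ := exists_radius hE H S.gH
  obtain ⟨n2, hn2⟩ := eval_ne_zero_large S.q0
  obtain ⟨n3, hn3⟩ := exists_nat_gt (ρ⁻¹)
  obtain ⟨h0, hh0, hh⟩ : ∃ h0 : ℝ, 0 ≤ h0 ∧ ∀ i j, Nm (H i j) (2 * ρ) ≤ h0 := by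
    refine ⟨∑ l : d × d, Nm (H l.1 l.2) (2 * ρ), Finset.sum_nonneg (fun _ _ => Nm_nonneg _ _), ?_⟩
    intro i j
    exact Finset.single_le_sum (f := fun l : d × d => Nm (H l.1 l.2) (2 * ρ))
      (fun _ _ => Nm_nonneg _ _) (Finset.mem_univ (i, j))
  obtain ⟨Q, hQ1, hQ⟩ : ∃ Q : ℝ, 1 ≤ Q ∧ ((nrm (zq q) : ℚ) : ℝ) ≤ Q :=
    ⟨max 1 _, le_max_left _ _, le_max_right _ _⟩
  have hρi : 1 ≤ ρ⁻¹ := by
    rw [one_le_inv₀ hρ]
    linarith
  have hCg1 : (1 : ℝ) ≤ Cg := by exact_mod_cast hCg0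
  have hCs1 : (1 : ℝ) ≤ Cs := by exact_mod_cast hCs0
  have hmuR : (1 : ℝ) ≤ mu := by exact_mod_cast hmu1
  let TT : ℕ → ℕ := fun L => mu + (L + c * mu ^ 2)
  let A : ℕ → ℝ := fun L => (mu : ℝ) * (((M : ℝ) * L + 1) * (Cs : ℝ) ^ L)
  let V : ℕ → ℝ := fun L => (Cg : ℝ) ^ (TT L + 1) * (A L * 2 ^ (M * L) * (Cg : ℝ) ^ (TT L + 1))
  let W : ℕ → ℝ := fun L => (Cg : ℝ) ^ (TT L + 1) *
    ((ρ⁻¹) ^ ((mu * M - 1) * L) * (Q ^ TT L * (A L * h0)))
  have hA1 : ∀ L, 1 ≤ A L := by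
    intro L
    have h1 : (1 : ℝ) ≤ (M : ℝ) * L + 1 := by
      have : (0 : ℝ) ≤ (M : ℝ) * L := by positivity
      linarith
    exact one_le_mul_of_one_le_of_one_le hmuR
      (one_le_mul_of_one_le_of_one_le h1 (one_le_pow₀ hCs1))
  have hexpA : ExpB A := (ExpB.const (Nat.cast_nonneg mu)).mul
    ((ExpB.lin M).mul (ExpB.geom' hCs1 (fun L => L) 1 0 (fun L => by ring)))
  have hexpC : ExpB (fun L => (Cg : ℝ) ^ (TT L + 1)) :=
    ExpB.geom' hCg1 (fun L => TT L + 1) 1 (mu + c * mu ^ 2 + 1) (fun L => by simp only [TT]; ring)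
  have hexpV : ExpB V := by
    have h2 : ExpB (fun L => (2 : ℝ) ^ (M * L)) :=
      ExpB.geom' one_le_two (fun L => M * L) M 0 (fun L => by ring)
    exact hexpC.mul ((hexpA.mul h2).mul hexpC)
  have hexpW : ExpB W := by
    have h2 : ExpB (fun L => (ρ⁻¹ : ℝ) ^ ((mu * M - 1) * L)) :=
      ExpB.geom' hρi (fun L => (mu * M - 1) * L) (mu * M - 1) 0 (fun L => by ring)
    have h3 : ExpB (fun L => Q ^ TT L) :=
      ExpB.geom' hQ1 TT 1 (mu + c * mu ^ 2) (fun L => by simp only [TT]; ring)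
    exact hexpC.mul (h2.mul (h3.mul (hexpA.mul (ExpB.const hh0))))
  have hV1 : ∀ L, 1 ≤ V L := by
    intro L
    have h1 : (1 : ℝ) ≤ (Cg : ℝ) ^ (TT L + 1) := one_le_pow₀ hCg1
    have h2 : (1 : ℝ) ≤ 2 ^ (M * L) := one_le_pow₀ one_le_two
    exact one_le_mul_of_one_le_of_one_le h1
      (one_le_mul_of_one_le_of_one_le (one_le_mul_of_one_le_of_one_le (hA1 L) h2) h1)
  refine ⟨c, M, V, W, c0 + 1, max (max n2 n3) 1, hM, hexpV, hexpW, hV1, le_max_right _ _, ?_⟩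
  intro L hL n hn
  have hn1 : 0 < n := lt_of_lt_of_le Nat.one_pos ((le_max_right _ _).trans hn)
  have hnn2 : n2 ≤ n := ((le_max_left _ _).trans (le_max_left _ _)).trans hn
  have hnn3 : n3 ≤ n := ((le_max_right _ _).trans (le_max_left _ _)).trans hn
  have hL1 : 1 ≤ L := by omega
  obtain ⟨P', hP0, hPd, hPc⟩ := hCs L hL1
  rw [← hmu] at hPc
  let P : Matrix d d ℤ[X] := fun j i => P' (j, i)
  have hPne : P.map zq ≠ 0 := by
    intro h
    apply hP0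
    funext l
    have h1 : zq (P l.1 l.2) = 0 := by
      have := congrFun (congrFun h l.1) l.2
      simpa using this
    by_contra h2
    exact zq_ne_zero h2 h1
  have hPdeg : ∀ i j, (P i j).natDegree ≤ M * L := fun i j => (hPd (i, j)).1
  have hPdeg' : ∀ i j, ((P.map zq) i j).natDegree ≤ M * L := by
    intro i j
    rw [Matrix.map_apply, natDegree_zq]
    exact hPdeg i j
  have hcoef : ∀ i < (mu * M - 1) * L, PowerSeries.coeff i
      (∑ i, ∑ j, (((P.map zq) j i : ℚ[X]) : PowerSeries ℚ) * H i j) = 0 := by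
    intro i hi
    have h1 := hPc i hi
    rw [Fintype.sum_prod_type, Finset.sum_comm] at h1
    exact h1
  have hcard : mu = Fintype.card d * Fintype.card d := by
    rw [hmu, Fintype.card_prod]
  have hdet := hc0 (M * L) (P.map zq) hPdeg' hPne (fun i hi => hcoef i
    (lt_of_le_of_lt hi (index_lt _ mu M L c0 Fintype.card_pos hcard hM3 (by omega))))
  have hξ0 : ((n : ℚ)⁻¹) ≠ 0 := inv_ne_zero (by exact_mod_cast hn1.ne')
  have hzeb := hB d H K N q B S c hc1 hc2 (M * L) ((mu * M - 1) * L) (L + c * mu ^ 2)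
    (P.map zq) ((n : ℚ)⁻¹) hPdeg' hcoef hdet hξ0 (hn2 n hnn2)
    (by rw [← hmu]; exact index_le mu M L c (Nat.mul_pos hmu1 (by omega)))
  rw [← hmu] at hzeb
  -- denominators and sizes
  obtain ⟨Dg, hD0, hD1, hD⟩ := hCg (TT L)
  have hPn := sum_nrm_le P (M * L) (Cs ^ L) (fun i j => ⟨hPdeg i j, fun k => by
    have := (hPd (i, j)).2 k
    push_cast
    exact this⟩)
  rw [← hmu] at hPn
  have hspec := hD (M * L) _ P hPdeg hPn
  let Z := Pk (zq q) (B.map zq) (N.map (fun x => (x : ℚ))) (P.map zq)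
  have hZdeg : ∀ k ≤ TT L, ∀ i j, (Z k i j).natDegree ≤ M * L + c * TT L := by
    intro k hk i j
    refine (hR.2 d d (zq q) (B.map zq) (N.map (fun x => (x : ℚ))) (P.map zq) c (M * L) hc1
      (fun i j => hc2 i j) hPdeg' k i j).trans ?_
    exact Nat.add_le_add_left (Nat.mul_le_mul_left _ hk) _
  have hxabs : |((n : ℚ)⁻¹)| ≤ 1 := by
    rw [abs_of_pos (by positivity)]
    exact inv_le_one_of_one_le₀ (by exact_mod_cast hn1)
  have hv : ∀ (k : Fin (mu + (L + c * mu ^ 2))) (l : d × d), ∃ v : ℤ,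
      (v : ℚ) = (n : ℚ) ^ (M * L + c * TT L) * ((Dg : ℚ) * (Z k l.1 l.2).eval ((n : ℚ)⁻¹)) := by
    intro k l
    obtain ⟨z, hz⟩ := (hspec k (le_of_lt k.2)).1 l.1 l.2
    have hzdeg : z.natDegree ≤ M * L + c * TT L := by
      rw [← natDegree_zq, ← hz]
      exact (Polynomial.natDegree_smul_le _ _).trans (hZdeg k (le_of_lt k.2) _ _)
    obtain ⟨v, hv⟩ := int_value z (M * L + c * TT L) n hn1 hzdeg
    refine ⟨v, ?_⟩
    rw [hv, ← hz, Polynomial.eval_smul, smul_eq_mul]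
  choose v hv using hv
  have hnE : ((n : ℚ) ^ (M * L + c * TT L)) ≠ 0 := pow_ne_zero _ (by exact_mod_cast hn1.ne')
  have hDne : (Dg : ℚ) ≠ 0 := by exact_mod_cast hD0.ne'
  have hDle : (Dg : ℚ) ≤ (Cg : ℚ) ^ (TT L + 1) := by exact_mod_cast hD1
  refine ⟨v, ?_, ?_, ?_⟩
  · apply span_top_of_dual
    intro u hu
    have h1 := hzeb (fun i j => u (j, i)) (fun k hk => by
      have h2 := hu ⟨k, hk⟩
      simp only [hv] at h2
      have h3 : ∑ i : d × d, (n : ℚ) ^ (M * L + c * TT L) *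
          ((Dg : ℚ) * (Z k i.1 i.2).eval ((n : ℚ)⁻¹)) * u i =
          (n : ℚ) ^ (M * L + c * TT L) * (Dg : ℚ) *
            ∑ i : d × d, (Z k i.1 i.2).eval ((n : ℚ)⁻¹) * u i := by
        rw [Finset.mul_sum]
        exact Finset.sum_congr rfl (fun i _ => by ring)
      rw [h3] at h2
      have h4 := (mul_eq_zero.1 h2).resolve_left (mul_ne_zero hnE hDne)
      rw [Fintype.sum_prod_type, Finset.sum_comm] at h4
      exact h4)
    funext l
    have := congrFun (congrFun h1 l.2) l.1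
    simpa using this
  · intro k l
    have h1 : |(v k l : ℚ)| ≤ (n : ℚ) ^ (M * L + c * TT L) * ((Cg : ℚ) ^ (TT L + 1) *
        ((mu : ℚ) * ((((M * L : ℕ) : ℚ) + 1) * ((Cs ^ L : ℕ) : ℚ)) * 2 ^ (M * L) *
          (Cg : ℚ) ^ (TT L + 1))) := by
      rw [hv, abs_mul, abs_mul, abs_of_nonneg (pow_nonneg (Nat.cast_nonneg n) _),
        abs_of_nonneg (Nat.cast_nonneg Dg)]
      refine mul_le_mul_of_nonneg_left ?_ (by positivity)
      refine mul_le_mul hDle ?_ (abs_nonneg _) (by positivity)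
      refine (eval_le_nrm _ hxabs).trans ?_
      refine le_trans ?_ (hspec k (le_of_lt k.2)).2
      have e1 : nrm (Z k l.1 l.2) ≤ ∑ j, nrm (Z k l.1 j) :=
        Finset.single_le_sum (f := fun j => nrm (Z k l.1 j)) (fun _ _ => nrm_nonneg _)
          (Finset.mem_univ l.2)
      have e2 : ∑ j, nrm (Z k l.1 j) ≤ ∑ i, ∑ j, nrm (Z k i j) :=
        Finset.single_le_sum (f := fun i => ∑ j, nrm (Z k i j))
          (fun _ _ => Finset.sum_nonneg (fun _ _ => nrm_nonneg _)) (Finset.mem_univ l.1)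
      exact e1.trans e2
    have h2 : |(v k l : ℝ)| = ((|(v k l : ℚ)| : ℚ) : ℝ) := by
      push_cast
      rfl
    rw [h2]
    have h3 : ((|(v k l : ℚ)| : ℚ) : ℝ) ≤ _ := Rat.cast_le.2 h1
    refine h3.trans (le_of_eq ?_)
    simp only [V, A, TT]
    push_cast
    ring
  · intro k
    have hx : 0 ≤ ((n : ℝ)⁻¹) := by positivity
    have hxρ : ((n : ℝ)⁻¹) ≤ ρ := by
      rw [inv_le_comm₀ (by exact_mod_cast hn1) hρ]
      have : (n3 : ℝ) ≤ n := by exact_mod_cast hnn3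
      linarith
    have hcast : (((n : ℚ)⁻¹ : ℚ) : ℝ) = ((n : ℝ)⁻¹) := by push_cast; rfl
    have h2ρ : |(2 * ρ)| = 2 * ρ := abs_of_pos (by linarith)
    have hsm : ∀ i j, Sm (H i j) (((n : ℚ)⁻¹ : ℚ) : ℝ) := by
      intro i j
      refine (hρs i j).mono ?_
      rw [hcast, abs_of_nonneg hx, h2ρ]
      linarith
    have h1 := ev_trace hE (Z k) H ((n : ℚ)⁻¹) hsm
    rw [rec_coe S hR (P.map zq) k, hcast] at h1
    have h2 : ∑ l, (v k l : ℝ) * ev (H l.2 l.1) (n : ℝ)⁻¹ =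
        (n : ℝ) ^ (M * L + c * TT L) * (Dg : ℝ) *
          ∑ l : d × d, (((Z k l.1 l.2).eval ((n : ℚ)⁻¹) : ℚ) : ℝ) * ev (H l.2 l.1) (n : ℝ)⁻¹ := by
      rw [Finset.mul_sum]
      refine Finset.sum_congr rfl (fun l _ => ?_)
      have h3 : ((v k l : ℤ) : ℝ) = (((v k l : ℤ) : ℚ) : ℝ) := by push_cast; rfl
      rw [h3, hv]
      push_cast
      ring
    rw [h2, ← h1, abs_mul, abs_mul, abs_of_nonneg (show (0 : ℝ) ≤ (n : ℝ) ^ (M * L + c * TT L) by
      positivity), abs_of_nonneg (show (0 : ℝ) ≤ (Dg : ℝ) by positivity)]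
    have hA' : ((∑ i, ∑ j, nrm ((P.map zq) i j) : ℚ) : ℝ) ≤ A L := by
      have : ((∑ i, ∑ j, nrm ((P.map zq) i j) : ℚ) : ℝ) ≤ _ := Rat.cast_le.2 hPn
      refine this.trans (le_of_eq ?_)
      simp only [A]
      push_cast
      ring
    have htr := Nm_trace (P.map zq) H (2 * ρ) (A L) h0 (by rw [h2ρ]; exact hρ1) hρs hA' hh hh0
    have hcoef' : ∀ i < (mu * M - 1) * L, PowerSeries.coeff i
        (trace ((P.map zq).map (fun p => (p : PowerSeries ℚ)) * H)) = 0 := by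
      intro i hi
      have h5 := hcoef i hi
      rw [Finset.sum_comm] at h5
      exact h5
    have hsv := small_value (zq q) ((mu * M - 1) * L) k (TT L) ρ ((n : ℝ)⁻¹) Q (A L * h0) hρ hρ1
      hx hxρ hcoef' htr.1 htr.2 hQ1 hQ (le_of_lt k.2)
    have hDR : (Dg : ℝ) ≤ (Cg : ℝ) ^ (TT L + 1) := by exact_mod_cast hD1
    calc (n : ℝ) ^ (M * L + c * TT L) * (Dg : ℝ) * |ev (((X * zq q : ℚ[X]) : PowerSeries ℚ) ^ (k : ℕ) *
          hs k (trace ((P.map zq).map (fun p => (p : PowerSeries ℚ)) * H))) (n : ℝ)⁻¹|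
        ≤ (n : ℝ) ^ (M * L + c * TT L) * (Cg : ℝ) ^ (TT L + 1) *
          (((n : ℝ)⁻¹ / ρ) ^ ((mu * M - 1) * L) * (Q ^ TT L * (A L * h0))) := by
          refine mul_le_mul ?_ hsv (abs_nonneg _) (by positivity)
          exact mul_le_mul_of_nonneg_left hDR (by positivity)
      _ = (n : ℝ) ^ (M * L + c * TT L) * W L * ((n : ℝ)⁻¹) ^ ((mu * M - 1) * L) := by
          simp only [W]
          rw [div_eq_mul_inv, mul_pow]
          ring

end Pool.Agent.MT100.H76
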